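import Pool.Agent.H70.EQD.EXIa

/-!
# Module EXI of project EQD: a symmetric five sheeted covering for the second involution
-/

open Real Set Topology

namespace EQD

namespace Exi

/-! ### the covering -/

/-- the complement of the disk -/
abbrev XX (M : ℝ → ℝ) : Type := ↥(B4 \ Dtop M)

/-- the fiber bundle core -/
noncomputable def core (M : ℝ → ℝ) (hM : Good M) (hLC : S_LC) (hTAB : S_TAB) :
    FiberBundleCore (XX M) (XX M) (Fin 5) where
  baseSet x := interior {y : XX M | P M (x : E4) (y : E4)}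
  isOpen_baseSet _ := isOpen_interior
  indexAt := id
  mem_baseSet_at x := by
    rw [mem_interior_iff_mem_nhds]
    have h := near M hM hLC x x.2.2
    have h2 := (continuous_subtype_val.tendsto x).eventually h
    filter_upwards [h2] with y hy
    exact hy y.2.2
  coordChange a b y v := (cc M b (jj y))⁻¹ (cc M a (jj y) v)
  coordChange_self a y _ v := by simp
  continuousOn_coordChange a b := by
    rintro ⟨y₀, v₀⟩ ⟨⟨h1, h2⟩, -⟩
    refine ContinuousAt.continuousWithinAt ?_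
    have hc : Continuous fun q : XX M × Fin 5 =>
        (cc M b (jj y₀))⁻¹ (cc M a (jj y₀) q.2) :=
      (continuous_of_discreteTopology
        (f := fun v : Fin 5 => (cc M b (jj y₀))⁻¹ (cc M a (jj y₀) v))).comp continuous_snd
    refine hc.continuousAt.congr ?_
    have h3 := (continuous_subtype_val.tendsto y₀).eventually (near2 (y₀ : E4))
    have h4 := (continuous_fst.tendsto (y₀, v₀)).eventually h3
    filter_upwards [h4] with q hq
    exact A_const' M (cc_spec M hM hTAB a a.2.2) (cc_spec M hM hTAB b b.2.2)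
      (interior_subset h1) (interior_subset h2) (jj y₀) (jj q.1) (jj_spec _)
      (hq _ (jj_spec _)) q.2
  coordChange_comp a b c y _ v := by
    simp

/-- The total space -/
abbrev CC (M : ℝ → ℝ) (hM : Good M) (hLC : S_LC) (hTAB : S_TAB) : Type :=
  (core M hM hLC hTAB).TotalSpace

section

variable {M : ℝ → ℝ} {hM : Good M} {hLC : S_LC} {hTAB : S_TAB}

/-- the base point -/
def pr (c : CC M hM hLC hTAB) : XX M := c.proj
/-- the base point in `E4` -/
def pe (c : CC M hM hLC hTAB) : E4 := (pr c).1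
/-- the fibre coordinate in the own chart -/
def fc (c : CC M hM hLC hTAB) : Fin 5 := c.2
/-- constructor -/
def mk (hM : Good M) (hLC : S_LC) (hTAB : S_TAB) (x : XX M) (v : Fin 5) : CC M hM hLC hTAB :=
  ⟨x, v⟩

/-- coordinate of `c` in the chart at `b` -/
noncomputable def co (b : E4) (c : CC M hM hLC hTAB) : Fin 5 :=
  (cc M b (jj (pe c)))⁻¹ (cc M (pe c) (jj (pe c)) (fc c))

set_option maxRecDepth 4000 in
theorem continuousAt_iff {Z : Type*} [TopologicalSpace Z] (f : Z → CC M hM hLC hTAB) (z₀ : Z) :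
    ContinuousAt f z₀ ↔ ContinuousAt (fun z => pr (f z)) z₀ ∧
      ContinuousAt (fun z => co (pe (f z₀)) (f z)) z₀ :=
  FiberBundle.continuousAt_totalSpace (Fin 5) f

/-- the section which is constant in the frame `j` -/
noncomputable def sec (hM : Good M) (hLC : S_LC) (hTAB : S_TAB) (j : Fin 6) (i : Fin 5)
    (x : XX M) : CC M hM hLC hTAB :=
  mk hM hLC hTAB x ((cc M x.1 j)⁻¹ i)

set_option maxRecDepth 4000 in
theorem continuous_sec {Z : Type*} [TopologicalSpace Z] (j : Fin 6) (i : Fin 5) (γ : Z → XX M)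
    (hγ : Continuous γ) (hj : ∀ z, (γ z : E4) ∈ ClW j) :
    Continuous fun z => sec hM hLC hTAB j i (γ z) := by
  rw [continuous_iff_continuousAt]
  intro z₀
  rw [continuousAt_iff]
  refine ⟨hγ.continuousAt, ?_⟩
  have hc : ContinuousAt (fun _ : Z => (cc M (γ z₀).1 j)⁻¹ i) z₀ := continuousAt_const
  refine hc.congr ?_
  have h1 := near M hM hLC (γ z₀).1 (γ z₀).2.2
  have h2 := ((continuous_subtype_val.comp hγ).tendsto z₀).eventually h1
  filter_upwards [h2] with z hz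
  have h3 := A_const' M (cc_spec M hM hTAB (γ z).1 (γ z).2.2)
    (cc_spec M hM hTAB (γ z₀).1 (γ z₀).2.2) (P_self M _) (hz (γ z).2.2) (jj (γ z).1) j
    (jj_spec _) (hj z) ((cc M (γ z).1 j)⁻¹ i)
  show (cc M (γ z₀).1 j)⁻¹ i = (cc M (γ z₀).1 (jj (γ z).1))⁻¹ (cc M (γ z).1 (jj (γ z).1)
    ((cc M (γ z).1 j)⁻¹ i))
  rw [h3]
  simp

/-- the involution on the complement -/
def rX (x : XX M) : XX M :=
  ⟨rhp x.1, by
    refine ⟨?_, fun h => x.2.2 ((mem_Dtop_rhp M _).1 h)⟩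
    have h := x.2.1
    simp only [B4, Metric.mem_closedBall, dist_zero_right] at h ⊢
    rw [norm_rhp]
    exact h⟩

theorem continuous_rX : Continuous (rX : XX M → XX M) :=
  Continuous.subtype_mk (continuous_rhp.comp continuous_subtype_val) _

theorem rX_rX (x : XX M) : rX (rX x) = x := Subtype.ext (rhp_rhp _)

/-- the lift of the involution -/
noncomputable def th (c : CC M hM hLC hTAB) : CC M hM hLC hTAB :=
  mk hM hLC hTAB (rX (pr c)) ((cc M (rhp (pe c)) (-jj (pe c) - 1))⁻¹ (cc M (pe c) (jj (pe c)) (fc c)))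

theorem continuous_pr : Continuous (pr : CC M hM hLC hTAB → XX M) :=
  FiberBundle.continuous_proj (Fin 5) _

set_option maxRecDepth 4000 in
theorem continuous_th : Continuous (th : CC M hM hLC hTAB → CC M hM hLC hTAB) := by
  rw [continuous_iff_continuousAt]
  intro q₀
  rw [continuousAt_iff]
  refine ⟨(continuous_rX.comp continuous_pr).continuousAt, ?_⟩
  have hw := ((continuousAt_iff (id : CC M hM hLC hTAB → CC M hM hLC hTAB) q₀).1
    continuousAt_id).2
  have hc : ContinuousAt (fun q : CC M hM hLC hTAB =>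
      (cc M (rhp (pe q₀)) (-jj (pe q₀) - 1))⁻¹ (cc M (pe q₀) (jj (pe q₀))
        (co (pe q₀) q))) q₀ :=
    ContinuousAt.comp (g := fun v : Fin 5 =>
      (cc M (rhp (pe q₀)) (-jj (pe q₀) - 1))⁻¹ (cc M (pe q₀) (jj (pe q₀)) v))
      continuous_of_discreteTopology.continuousAt hw
  refine hc.congr ?_
  have hr₀ : rhp (pe q₀) ∉ Dtop M := (rX (pr q₀)).2.2
  have h1 := (((continuous_rhp.comp continuous_subtype_val).comp continuous_pr).tendsto
    q₀).eventually (near M hM hLC (rhp (pe q₀)) hr₀)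
  have h2 := ((continuous_subtype_val.comp continuous_pr).tendsto q₀).eventually
    (near2 (pe q₀))
  filter_upwards [h1, h2] with q hq1 hq2
  have hr : rhp (pe q) ∉ Dtop M := (rX (pr q)).2.2
  have h3 := A_const' M (cc_spec M hM hTAB (rhp (pe q)) hr)
    (cc_spec M hM hTAB (rhp (pe q₀)) hr₀) (P_self M _) (hq1 hr) (jj (rhp (pe q)))
    (-jj (pe q) - 1) (jj_spec _) ((ClW_rhp _ _).2 (jj_spec _))
    ((cc M (rhp (pe q)) (-jj (pe q) - 1))⁻¹ (cc M (pe q) (jj (pe q)) (fc q)))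
  have h4 := B_const' M hM (pr q₀).2.2 (cc_spec M hM hTAB (pe q₀) (pr q₀).2.2)
    (cc_spec M hM hTAB (rhp (pe q₀)) hr₀) (jj (pe q₀)) (jj (pe q)) (jj_spec _)
    (hq2 _ (jj_spec _)) (co (pe q₀) q)
  show (cc M (rhp (pe q₀)) (-jj (pe q₀) - 1))⁻¹ (cc M (pe q₀) (jj (pe q₀)) (co (pe q₀) q)) =
    (cc M (rhp (pe q₀)) (jj (rhp (pe q))))⁻¹ (cc M (rhp (pe q)) (jj (rhp (pe q)))
      ((cc M (rhp (pe q)) (-jj (pe q) - 1))⁻¹ (cc M (pe q) (jj (pe q)) (fc q))))
  refine (h4.trans ?_).trans h3.symm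
  simp [co]

set_option maxRecDepth 4000 in
theorem th_th (c : CC M hM hLC hTAB) : th (th c) = c := by
  have hr : rhp (pe c) ∉ Dtop M := (rX (pr c)).2.2
  have hB := B_const' M hM (pr c).2.2 (cc_spec M hM hTAB (pe c) (pr c).2.2)
    (cc_spec M hM hTAB (rhp (pe c)) hr) (jj (pe c)) (-jj (rhp (pe c)) - 1) (jj_spec _) (by
      have := (ClW_rhp (jj (rhp (pe c))) (rhp (pe c))).2 (jj_spec _)
      rwa [rhp_rhp] at this) (fc c)
  have e : (-(-jj (rhp (pe c)) - 1) - 1 : Fin 6) = jj (rhp (pe c)) := by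
    generalize jj (rhp (pe c)) = k
    revert k; decide
  rw [e] at hB
  have h2 : th (th c) = mk hM hLC hTAB (rX (rX (pr c)))
      ((cc M (rhp (rhp (pe c))) (-jj (rhp (pe c)) - 1))⁻¹
        (cc M (rhp (pe c)) (jj (rhp (pe c))) ((cc M (rhp (pe c)) (-jj (pe c) - 1))⁻¹
    (cc M (pe c) (jj (pe c)) (fc c))))) := rfl
  rw [h2, hB, rX_rX, rhp_rhp]
  have h3 : (cc M (pe c) (-jj (rhp (pe c)) - 1))⁻¹
        (cc M (rhp (pe c)) (jj (rhp (pe c))) ((cc M (rhp (pe c)) (jj (rhp (pe c))))⁻¹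
    (cc M (pe c) (-jj (rhp (pe c)) - 1) (fc c)))) = fc c := by
    simp
  rw [h3]
  rfl

theorem isCovering : IsCoveringMap (pr : CC M hM hLC hTAB → XX M) :=
  FiberBundle.isCoveringMap (F := Fin 5) (E := (core M hM hLC hTAB).Fiber)


/-! ### segments -/

theorem ell_lineMap (j : Fin 6) (x w : E4) (t : ℝ) :
    ell j (AffineMap.lineMap x w t) = (1 - t) * ell j x + t * ell j w := by
  simp only [ell, AffineMap.lineMap_apply, vsub_eq_sub, vadd_eq_add, PiLp.add_apply,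
    PiLp.smul_apply, PiLp.sub_apply, smul_eq_mul]
  ring

theorem lineMap_mem_ClW {j : Fin 6} {x w : E4} (hx : x ∈ ClW j) (hw : w ∈ Wd j) (t : ℝ)
    (h0 : 0 ≤ t) (h1 : t ≤ 1) : AffineMap.lineMap x w t ∈ ClW j := by
  refine ⟨?_, ?_⟩
  · rw [ell_lineMap]
    have := hx.1
    have := hw.1
    have : 0 ≤ 1 - t := by linarith
    positivity
  · rw [ell_lineMap]
    have h2 : (1 - t) * ell (j + 1) x ≤ 0 :=
      mul_nonpos_of_nonneg_of_nonpos (by linarith) hx.2
    have h3 : t * ell (j + 1) w ≤ 0 := mul_nonpos_of_nonneg_of_nonpos h0 hw.2.le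
    linarith

theorem lineMap_mem_Wd {j : Fin 6} {x w : E4} (hx : x ∈ ClW j) (hw : w ∈ Wd j) (t : ℝ)
    (h0 : 0 < t) (h1 : t ≤ 1) : AffineMap.lineMap x w t ∈ Wd j := by
  refine ⟨?_, ?_⟩
  · rw [ell_lineMap]
    have h2 : 0 ≤ (1 - t) * ell j x := mul_nonneg (by linarith) hx.1
    have h3 : 0 < t * ell j w := mul_pos h0 hw.1
    linarith
  · rw [ell_lineMap]
    have h2 : (1 - t) * ell (j + 1) x ≤ 0 :=
      mul_nonpos_of_nonneg_of_nonpos (by linarith) hx.2
    have h3 : t * ell (j + 1) w < 0 := mul_neg_of_pos_of_neg h0 hw.2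
    linarith

theorem lineMap_mem_XX (hM : Good M) (hCLO : S_CLO) {j : Fin 6} (x w : XX M)
    (hx : (x : E4) ∈ ClW j) (hw : (w : E4) ∈ Wd j) (t : ℝ)
    (h0 : 0 ≤ t) (h1 : t ≤ 1) : AffineMap.lineMap (x : E4) (w : E4) t ∈ B4 \ Dtop M := by
  refine ⟨?_, ?_⟩
  · exact (convex_closedBall (0 : E4) 1).lineMap_mem x.2.1 w.2.1 ⟨h0, h1⟩
  · rcases h0.eq_or_lt with h | h
    · rw [← h, AffineMap.lineMap_apply_zero]
      exact x.2.2
    · exact (hCLO M hM).2 j _ (lineMap_mem_Wd hx hw t h h1)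

theorem seg_joined (hCLO : S_CLO) {j : Fin 6} {i : Fin 5} (x w : XX M)
    (hx : (x : E4) ∈ ClW j) (hw : (w : E4) ∈ Wd j) :
    Joined (sec hM hLC hTAB j i x) (sec hM hLC hTAB j i w) := by
  let γ : unitInterval → XX M := fun t =>
    ⟨AffineMap.lineMap (x : E4) (w : E4) (t : ℝ), lineMap_mem_XX hM hCLO x w hx hw t t.2.1 t.2.2⟩
  have hγ : Continuous γ := by
    refine Continuous.subtype_mk ?_ _
    simp only [AffineMap.lineMap_apply]
    fun_prop
  have h0 : γ 0 = x := Subtype.ext (by simp [γ])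
  have h1 : γ 1 = w := Subtype.ext (by simp [γ])
  refine ⟨⟨⟨fun t => sec hM hLC hTAB j i (γ t),
    continuous_sec j i γ hγ (fun t => lineMap_mem_ClW hx hw t t.2.1 t.2.2)⟩, ?_, ?_⟩⟩
  · show sec hM hLC hTAB j i (γ 0) = _
    rw [h0]
  · show sec hM hLC hTAB j i (γ 1) = _
    rw [h1]

/-! ### the half circle -/

theorem hpath_zero : hpath 0 = rf M 0 := by
  ext i
  fin_cases i <;> simp [hpath, rf, rfx, rfs]

theorem hpath_one : hpath 1 = rf M 5 := by
  ext i
  fin_cases i <;> simp [hpath, rf, rfx, rfs]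

theorem rhp_hpath_one : rhp (hpath 1) = hpath 0 := by
  ext i
  fin_cases i <;> simp [hpath, rhp]

theorem hpath_mem_B4 (t : ℝ) : hpath t ∈ B4 := by
  simp only [B4, Metric.mem_closedBall, dist_zero_right]
  rw [EuclideanSpace.norm_eq]
  simp [hpath, Fin.sum_univ_four]

theorem hpath_ClW (t : unitInterval) : hpath t ∈ ClW 1 := by
  have h : 0 ≤ sin (π * (t : ℝ)) := by
    refine sin_nonneg_of_nonneg_of_le_pi (mul_nonneg pi_pos.le t.2.1) ?_
    have := t.2.2
    nlinarith [pi_pos]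
  refine ⟨?_, ?_⟩ <;> simp [ell, hpath, uy, uz] <;> exact h

theorem continuous_hpath : Continuous hpath := by
  unfold hpath
  have : Continuous fun t : ℝ => (![cos (π * t), 0, sin (π * t), 0] : Fin 4 → ℝ) := by
    apply continuous_pi
    intro i
    fin_cases i <;> simp <;> fun_prop
  exact (PiLp.continuous_toLp 2 _).comp this

theorem hpath_not_mem (hM : Good M) (hCLO : S_CLO) (hREF : S_REF) (t : unitInterval) :
    hpath t ∉ Dtop M := by
  by_cases h0 : t = 0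
  · subst h0
    have := (hREF M hM 0).2.1
    rw [← hpath_zero] at this
    exact this
  by_cases h1 : t = 1
  · subst h1
    have := (hREF M hM 5).2.1
    rw [← hpath_one] at this
    exact this
  have h0' : 0 < (t : ℝ) := unitInterval.pos_iff_ne_zero.2 h0
  have h1' : (t : ℝ) < 1 := unitInterval.lt_one_iff_ne_one.2 h1
  have h : 0 < sin (π * (t : ℝ)) := by
    refine sin_pos_of_pos_of_lt_pi (mul_pos pi_pos h0') ?_
    nlinarith [pi_pos]
  refine (hCLO M hM).2 1 _ ⟨?_, ?_⟩ <;> simp [ell, hpath, uy, uz] <;> exact h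

/-- the half circle in the complement -/
noncomputable def hX (hM : Good M) (hCLO : S_CLO) (hREF : S_REF) (t : unitInterval) : XX M :=
  ⟨hpath t, hpath_mem_B4 _, hpath_not_mem hM hCLO hREF t⟩

theorem lab_b (hM : Good M) (hREF : S_REF) (j : Fin 6) : lab M j (hpath 0) = tab 0 j := by
  rw [hpath_zero (M := M)]
  exact (hREF M hM 0).2.2 j

theorem hpath_zero_Pg (j : Fin 6) : hpath 0 ∈ Pg j := by
  refine ⟨?_, ?_⟩ <;> simp [ell, dt, hpath]

/-- the point on page `1` with label `1` -/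
noncomputable def vp : E4 := !₂[1 / 12, 1 / 6, 1 / 6, 1 / 2]

theorem rad_vp : rad vp = 1 / 4 := by
  unfold rad
  rw [Real.sqrt_eq_iff_mul_self_eq_of_pos (by norm_num)]
  simp [vp]
  norm_num

theorem mp_vp : mp vp = 0 := by
  unfold mp
  rw [rad_vp]
  simp [vp]

theorem mm_vp : mm vp = 1 := by
  unfold mm
  rw [rad_vp]
  simp [vp]
  norm_num

theorem vp_B4 : vp ∈ B4 := by
  simp only [B4, Metric.mem_closedBall, dist_zero_right]
  rw [EuclideanSpace.norm_eq, Real.sqrt_le_one]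
  simp [vp, Fin.sum_univ_four]
  norm_num

theorem vp_Pg (j : Fin 6) (h : vp ∈ Pg j) : j = 1 := by
  by_contra hj
  have := page_unique vp j 1 h (by
    refine ⟨?_, ?_⟩ <;> simp [ell, dt, uy, uz, vp]) hj
  have := this.1
  simp [vp] at this

theorem vp_Pg1 : vp ∈ Pg 1 := by
  refine ⟨?_, ?_⟩ <;> simp [ell, dt, uy, uz, vp]

theorem vp_Dtop (hM : Good M) : vp ∉ Dtop M := by
  rintro (h | ⟨j, h1, h2⟩)
  · have : rad vp = 0 := h
    rw [rad_vp] at this
    norm_num at this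
  · have hj := vp_Pg j h1
    subst hj
    unfold Cond at h2
    rw [if_neg (by decide)] at h2
    have e1 : m1 1 vp = 0 := by simp (decide := true) [m1, mp_vp]
    have e2 : m2 1 vp = 1 := by simp (decide := true) [m2, mm_vp]
    rw [e1, e2] at h2
    rcases h2 with h | ⟨-, h⟩ | ⟨-, h⟩
    · exact absurd h.symm (hM.pos _).ne'
    · have := hM.lt (2 * π - la 1 vp)
      linarith
    · have := hM.lt (2 * π)
      linarith

theorem lab_vp (hM : Good M) : lab M 1 vp = 1 := by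
  unfold lab
  rw [if_neg (by decide)]
  have e1 : m1 1 vp = 0 := by simp (decide := true) [m1, mp_vp]
  rw [e1]
  unfold labB
  rw [if_pos (hM.pos _)]


/-! ### assembly -/

theorem mk_congr {x : XX M} {v w : Fin 5} (h : v = w) :
    mk hM hLC hTAB x v = mk hM hLC hTAB x w := by rw [h]

theorem b_frames (hM : Good M) (hTAB : S_TAB) (hCLO : S_CLO) (hREF : S_REF) :
    cc M (hpath 0) 1 = cc M (hpath 0) 0 ∧ cc M (hpath 0) 1 = sg * cc M (hpath 0) 4 := by
  have hb : hpath 0 ∉ Dtop M := hpath_not_mem hM hCLO hREF 0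
  have hc := cc_spec M hM hTAB (hpath 0) hb
  have h5 := hc 5 (hpath_zero_Pg 5)
  have h0 := hc 0 (hpath_zero_Pg 0)
  have h1 := hc 1 (hpath_zero_Pg 1)
  rw [lab_b hM hREF] at h5 h0 h1
  have e1 : (1 : Fin 6) - 1 = 0 := by decide
  have e5 : (5 : Fin 6) - 1 = 4 := by decide
  have e0 : (0 : Fin 6) - 1 = 5 := by decide
  have g5 : G 5 (tab 0 5) = 1 := by decide
  have g0 : G 0 (tab 0 0) = sg := by decide
  have g1 : G 1 (tab 0 1) = 1 := by decide
  rw [e5, g5, one_mul] at h5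
  rw [e0, g0, h5] at h0
  rw [e1, g1, one_mul] at h1
  exact ⟨h1, by rw [h1, h0]⟩

set_option maxRecDepth 4000 in
theorem sec_b (hCLO : S_CLO) (hREF : S_REF) (i : Fin 5) :
    sec hM hLC hTAB 1 i (hX hM hCLO hREF 0) = sec hM hLC hTAB 0 i (hX hM hCLO hREF 0) := by
  have h := (b_frames hM hTAB hCLO hREF).1
  unfold sec
  refine mk_congr ?_
  show (cc M (hpath 0) 1)⁻¹ i = (cc M (hpath 0) 0)⁻¹ i
  rw [h]

set_option maxRecDepth 4000 in
theorem sec_vp (i : Fin 5) (hv : vp ∈ B4 \ Dtop M) :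
    sec hM hLC hTAB 0 i ⟨vp, hv⟩ = sec hM hLC hTAB 1 (pp i) ⟨vp, hv⟩ := by
  have hc := cc_spec M hM hTAB vp hv.2 1 vp_Pg1
  rw [lab_vp hM] at hc
  have e1 : (1 : Fin 6) - 1 = 0 := by decide
  have g1 : G 1 1 = pp := by decide
  rw [e1, g1] at hc
  unfold sec
  refine mk_congr ?_
  show (cc M vp 0)⁻¹ i = (cc M vp 1)⁻¹ (pp i)
  rw [hc]
  simp

theorem joined_end (hCLO : S_CLO) (hREF : S_REF) :
    Joined (sec hM hLC hTAB 1 0 (hX hM hCLO hREF 0))
      (sec hM hLC hTAB 1 2 (hX hM hCLO hREF 0)) := by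
  have hv : vp ∈ B4 \ Dtop M := ⟨vp_B4, vp_Dtop hM⟩
  have hw0 : wb 0 ∈ Wd 0 := by
    refine ⟨?_, ?_⟩
    · simp [ell, uy, uz, wb]
    · simp [ell, uy, uz, wb]
      norm_num
  have hw1 : wb 1 ∈ Wd 1 := by
    refine ⟨?_, ?_⟩ <;> simp [ell, uy, uz, wb]
  have hB0 : wb 0 ∈ B4 := by
    simp only [B4, Metric.mem_closedBall, dist_zero_right]
    rw [EuclideanSpace.norm_eq, Real.sqrt_le_one]
    simp [wb, uy, uz, Fin.sum_univ_four]
    norm_num
  have hB1 : wb 1 ∈ B4 := by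
    simp only [B4, Metric.mem_closedBall, dist_zero_right]
    rw [EuclideanSpace.norm_eq, Real.sqrt_le_one]
    simp [wb, uy, uz, Fin.sum_univ_four]
    norm_num
  have hb0 : hpath 0 ∈ ClW 0 := by
    refine ⟨?_, ?_⟩ <;> simp [ell, hpath]
  have hb1 : hpath 0 ∈ ClW 1 := by
    refine ⟨?_, ?_⟩ <;> simp [ell, hpath]
  have hv0 : vp ∈ ClW 0 := by
    refine ⟨?_, ?_⟩ <;> simp [ell, uy, uz, vp]
  have hv1 : vp ∈ ClW 1 := by
    refine ⟨?_, ?_⟩ <;> simp [ell, uy, uz, vp]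
  let W0 : XX M := ⟨wb 0, hB0, (hCLO M hM).2 0 _ hw0⟩
  let W1 : XX M := ⟨wb 1, hB1, (hCLO M hM).2 1 _ hw1⟩
  have j1 : Joined (sec hM hLC hTAB 0 0 (hX hM hCLO hREF 0)) (sec hM hLC hTAB 0 0 W0) :=
    seg_joined hCLO _ W0 hb0 hw0
  have j2 : Joined (sec hM hLC hTAB 0 0 ⟨vp, hv⟩) (sec hM hLC hTAB 0 0 W0) :=
    seg_joined hCLO ⟨vp, hv⟩ W0 hv0 hw0
  have j3 : Joined (sec hM hLC hTAB 1 2 (hX hM hCLO hREF 0)) (sec hM hLC hTAB 1 2 W1) :=
    seg_joined hCLO _ W1 hb1 hw1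
  have j4 : Joined (sec hM hLC hTAB 1 2 ⟨vp, hv⟩) (sec hM hLC hTAB 1 2 W1) :=
    seg_joined hCLO ⟨vp, hv⟩ W1 hv1 hw1
  rw [sec_b hCLO hREF 0]
  have e : sec hM hLC hTAB 0 0 ⟨vp, hv⟩ = sec hM hLC hTAB 1 2 ⟨vp, hv⟩ := sec_vp 0 hv
  rw [e] at j2
  exact j1.trans (j2.symm.trans (j4.trans j3.symm))

set_option maxRecDepth 4000 in
theorem th_hh (hCLO : S_CLO) (hREF : S_REF) (i : Fin 5) :
    th (sec hM hLC hTAB 1 i (hX hM hCLO hREF 1)) =
      sec hM hLC hTAB 1 (sg i) (hX hM hCLO hREF 0) := by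
  have hb : hpath 0 ∉ Dtop M := hpath_not_mem hM hCLO hREF 0
  have ha : hpath 1 ∉ Dtop M := hpath_not_mem hM hCLO hREF 1
  have hr : rhp (hpath 1) ∉ Dtop M := by rw [rhp_hpath_one]; exact hb
  have hB := B_const' M hM ha (cc_spec M hM hTAB (hpath 1) ha)
    (cc_spec M hM hTAB (rhp (hpath 1)) hr) (jj (hpath 1)) 1 (jj_spec _)
    (hpath_ClW 1) ((cc M (hpath 1) 1)⁻¹ i)
  have hx : rX (hX hM hCLO hREF 1) = hX hM hCLO hREF 0 := Subtype.ext rhp_hpath_one
  have h2 : th (sec hM hLC hTAB 1 i (hX hM hCLO hREF 1)) =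
      mk hM hLC hTAB (rX (hX hM hCLO hREF 1))
        ((cc M (rhp (hpath 1)) (-jj (hpath 1) - 1))⁻¹ (cc M (hpath 1) (jj (hpath 1))
          ((cc M (hpath 1) 1)⁻¹ i))) := rfl
  rw [h2, hB, hx]
  unfold sec
  refine mk_congr ?_
  show (cc M (rhp (hpath 1)) (-1 - 1))⁻¹ (cc M (hpath 1) 1 ((cc M (hpath 1) 1)⁻¹ i)) =
    (cc M (hpath 0) 1)⁻¹ (sg i)
  have e4 : (-1 - 1 : Fin 6) = 4 := by decide
  rw [(b_frames hM hTAB hCLO hREF).2, e4, rhp_hpath_one]
  simp

set_option maxRecDepth 4000 in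
theorem surj_hh (hCLO : S_CLO) (hREF : S_REF) (c : CC M hM hLC hTAB)
    (hc : (pr c : E4) = hpath 0) :
    ∃ i, c = sec hM hLC hTAB 1 i (hX hM hCLO hREF 0) := by
  obtain ⟨x, v⟩ := c
  have hx : x = hX hM hCLO hREF 0 := Subtype.ext hc
  subst hx
  refine ⟨cc M (hpath 0) 1 v, ?_⟩
  unfold sec
  have : (cc M (hpath 0) 1)⁻¹ (cc M (hpath 0) 1 v) = v := by simp
  show mk hM hLC hTAB (hX hM hCLO hREF 0) v = mk hM hLC hTAB (hX hM hCLO hREF 0)
    ((cc M (hpath 0) 1)⁻¹ (cc M (hpath 0) 1 v))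
  rw [this]

set_option maxRecDepth 4000 in
theorem inj_hh (hCLO : S_CLO) (hREF : S_REF) :
    Function.Injective (fun i => sec hM hLC hTAB 1 i (hX hM hCLO hREF 0)) := by
  intro i k h
  have h2 : fc (sec hM hLC hTAB 1 i (hX hM hCLO hREF 0)) =
      fc (sec hM hLC hTAB 1 k (hX hM hCLO hREF 0)) := congrArg fc h
  exact (cc M (hpath 0) 1)⁻¹.injective h2

end

end Exi

/-- Module EXI. -/
theorem exi (hCLO : S_CLO) (hLC : S_LC) (hTAB : S_TAB) (hREF : S_REF) : S_EXI := by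
  intro M hM
  refine ⟨Exi.CC M hM hLC hTAB, inferInstance, Exi.pr, Exi.th,
    fun i t => Exi.sec hM hLC hTAB 1 i (Exi.hX hM hCLO hREF t), Exi.isCovering,
    Exi.continuous_th, fun c => rfl, Exi.th_th, fun i => ?_, fun i t => rfl,
    Exi.surj_hh hCLO hREF, Exi.inj_hh hCLO hREF, Exi.th_hh hCLO hREF,
    Exi.joined_end hCLO hREF⟩
  exact Exi.continuous_sec 1 i (Exi.hX hM hCLO hREF)
    (Continuous.subtype_mk (Exi.continuous_hpath.comp continuous_subtype_val) _)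
    Exi.hpath_ClW

end EQD
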