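import Pool.Agent.H73.EQD.Stmts

/-!
# Module EXI of project EQD, first part: permutations, wedges and frames
-/

open Real Set Topology

namespace EQD

namespace Exi

/-! ### the permutations -/

def pp : Equiv.Perm (Fin 5) where
  toFun := ![2, 1, 4, 3, 0]
  invFun := ![4, 1, 0, 3, 2]
  left_inv := by decide
  right_inv := by decide

def qq : Equiv.Perm (Fin 5) where
  toFun := ![0, 3, 1, 2, 4]
  invFun := ![0, 2, 3, 1, 4]
  left_inv := by decide
  right_inv := by decide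

def vv : Equiv.Perm (Fin 5) where
  toFun := ![0, 4, 1, 3, 2]
  invFun := ![0, 2, 4, 3, 1]
  left_inv := by decide
  right_inv := by decide

def uu : Equiv.Perm (Fin 5) where
  toFun := ![2, 1, 3, 0, 4]
  invFun := ![3, 1, 0, 2, 4]
  left_inv := by decide
  right_inv := by decide

/-- monodromy across page `j` at a point with label `l` -/
def G : Fin 6 → Fin 3 → Equiv.Perm (Fin 5) :=
  ![![sg, sg⁻¹, 1], ![1, pp, qq], ![1, vv, uu], ![sg, sg⁻¹, 1], ![1, vv⁻¹, uu⁻¹],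
    ![1, pp⁻¹, qq⁻¹]]

theorem G_prod : ∀ i : Fin 10,
    G 5 (tab i 5) * G 4 (tab i 4) * G 3 (tab i 3) * G 2 (tab i 2) * G 1 (tab i 1) *
      G 0 (tab i 0) = 1 := by
  decide

theorem G_neg : ∀ (j : Fin 6) (l : Fin 3), j ≠ 0 → j ≠ 3 → G (-j) l = (G j l)⁻¹ := by
  decide

theorem G_neg' : ∀ (j : Fin 6), j = 0 ∨ j = 3 → G (-j) 1 = (G j 0)⁻¹ ∧ G (-j) 0 = (G j 1)⁻¹ := by
  decide

/-! ### geometry of the wedges and pages -/

theorem exists_wedge (p : E4) : ∃ j, p ∈ ClW j := by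
  rcases le_total 0 (p 2) with h | h
  · rcases le_total (p 2) (p 1) with h1 | h1
    · exact ⟨0, by simp [ClW, ell, uy, uz]; constructor <;> linarith⟩
    · rcases le_total (-(p 2)) (p 1) with h2 | h2
      · exact ⟨1, by simp [ClW, ell, uy, uz]; constructor <;> linarith⟩
      · exact ⟨2, by simp [ClW, ell, uy, uz]; constructor <;> linarith⟩
  · rcases le_total (p 1) (p 2) with h1 | h1
    · exact ⟨3, by simp [ClW, ell, uy, uz]; constructor <;> linarith⟩
    · rcases le_total (-(p 2)) (p 1) with h2 | h2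
      · exact ⟨5, by simp [ClW, ell, uy, uz]; constructor <;> linarith⟩
      · exact ⟨4, by simp [ClW, ell, uy, uz]; constructor <;> linarith⟩

theorem adj (p : E4) (j : Fin 6) (h : p ∈ ClW j) (h' : p ∈ ClW (j + 1)) : p ∈ Pg (j + 1) := by
  fin_cases j <;> simp [ClW, Pg, ell, dt, uy, uz] at h h' ⊢ <;>
    (constructor <;> linarith [h.1, h.2, h'.1, h'.2])

theorem far (p : E4) (j k : Fin 6) (h : p ∈ ClW j) (h' : p ∈ ClW k) (h1 : k ≠ j)
    (h2 : k ≠ j + 1) (h3 : j ≠ k + 1) : p 1 = 0 ∧ p 2 = 0 := by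
  fin_cases j <;> fin_cases k <;> simp [ClW, ell, uy, uz] at h h' h1 h2 h3 ⊢ <;>
    (constructor <;> linarith [h.1, h.2, h'.1, h'.2])

theorem chain {α : Type*} (A : Fin 6 → α) (p : E4) (h : ∀ j, p ∈ Pg j → A j = A (j - 1))
    (j k : Fin 6) (hj : p ∈ ClW j) (hk : p ∈ ClW k) : A j = A k := by
  by_cases hb : p 1 = 0 ∧ p 2 = 0
  · have h' : ∀ j, A j = A (j - 1) := fun j => h j (by
      simp [Pg, ell, dt, hb.1, hb.2])
    have h0 := h' 0
    have h1 := h' 1
    have h2 := h' 2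
    have h3 := h' 3
    have h4 := h' 4
    have h5 := h' 5
    have e1 : (1 : Fin 6) - 1 = 0 := by decide
    have e2 : (2 : Fin 6) - 1 = 1 := by decide
    have e3 : (3 : Fin 6) - 1 = 2 := by decide
    have e4 : (4 : Fin 6) - 1 = 3 := by decide
    have e5 : (5 : Fin 6) - 1 = 4 := by decide
    rw [e1] at h1; rw [e2] at h2; rw [e3] at h3; rw [e4] at h4; rw [e5] at h5
    have key : ∀ j, A j = A 0 := by
      intro j
      fin_cases j
      · rfl
      · exact h1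
      · exact h2.trans h1
      · exact h3.trans (h2.trans h1)
      · exact h4.trans (h3.trans (h2.trans h1))
      · exact h5.trans (h4.trans (h3.trans (h2.trans h1)))
    rw [key j, key k]
  · by_cases h1 : k = j
    · rw [h1]
    · by_cases h2 : k = j + 1
      · subst h2
        have := h _ (adj p j hj hk)
        rw [add_sub_cancel_right] at this
        exact this.symm
      · by_cases h3 : j = k + 1
        · subst h3
          have := h _ (adj p k hk hj)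
          rw [add_sub_cancel_right] at this
          exact this
        · exact absurd (far p j k hj hk h1 h2 h3) hb

theorem isClosed_ClW (j : Fin 6) : IsClosed (ClW j) := by
  have h1 : Continuous fun p : E4 => ell j p := by unfold ell; fun_prop
  have h2 : Continuous fun p : E4 => ell (j + 1) p := by unfold ell; fun_prop
  exact (isClosed_le continuous_const h1).inter (isClosed_le h2 continuous_const)

theorem isClosed_Pg (j : Fin 6) : IsClosed (Pg j) := by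
  have h1 : Continuous fun p : E4 => ell j p := by unfold ell; fun_prop
  have h2 : Continuous fun p : E4 => dt j p := by unfold dt; fun_prop
  exact (isClosed_eq h1 continuous_const).inter (isClosed_le continuous_const h2)

/-! ### the involution -/

theorem rhp_rhp (p : E4) : rhp (rhp p) = p := by
  ext i
  fin_cases i <;> simp [rhp]

theorem continuous_rhp : Continuous rhp := by
  unfold rhp
  have : Continuous fun p : E4 => (![-p 0, p 1, -p 2, -p 3] : Fin 4 → ℝ) := by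
    apply continuous_pi
    intro i
    fin_cases i <;> simp <;> fun_prop
  exact (PiLp.continuous_toLp 2 _).comp this

theorem norm_rhp (p : E4) : ‖rhp p‖ = ‖p‖ := by
  rw [EuclideanSpace.norm_eq, EuclideanSpace.norm_eq]
  congr 1
  simp [rhp, Fin.sum_univ_four]

theorem rad_rhp (p : E4) : rad (rhp p) = rad p := by
  simp [rad, rhp]

theorem lat_rhp (p : E4) : lat (rhp p) = - lat p := by
  unfold lat
  rw [rad_rhp]
  simp [rhp, neg_div, arcsin_neg]

theorem mp_rhp (p : E4) : mp (rhp p) = mm p := by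
  unfold mp mm
  rw [rad_rhp]
  congr 1
  simp [rhp]
  ring

theorem mm_rhp (p : E4) : mm (rhp p) = mp p := by
  unfold mp mm
  rw [rad_rhp]
  congr 1
  simp [rhp]
  ring

theorem ell_rhp (j : Fin 6) (p : E4) : ell (-j) (rhp p) = - ell j p := by
  fin_cases j <;> simp [ell, rhp, uy, uz] <;> ring

theorem dt_rhp (j : Fin 6) (p : E4) : dt (-j) (rhp p) = dt j p := by
  fin_cases j <;> simp [dt, rhp, uy, uz]

theorem Pg_rhp (j : Fin 6) (p : E4) : rhp p ∈ Pg (-j) ↔ p ∈ Pg j := by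
  simp only [Pg, Set.mem_ofPred_eq, ell_rhp, dt_rhp, neg_eq_zero]

theorem ClW_rhp (j : Fin 6) (p : E4) : rhp p ∈ ClW (-j - 1) ↔ p ∈ ClW j := by
  have e : (-j - 1 : Fin 6) + 1 = -j := sub_add_cancel _ _
  have e' : (-j - 1 : Fin 6) = -(j + 1) := by rw [neg_add, sub_eq_add_neg]
  simp only [ClW, Set.mem_ofPred_eq]
  rw [e, e', ell_rhp, ell_rhp]
  constructor
  · rintro ⟨h1, h2⟩
    exact ⟨by linarith, by linarith⟩
  · rintro ⟨h1, h2⟩
    exact ⟨by linarith, by linarith⟩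

theorem la_rhp (j : Fin 6) (h0 : j ≠ 0) (h3 : j ≠ 3) (p : E4) : la (-j) (rhp p) = la j p := by
  fin_cases j <;> simp [la, lat_rhp] at h0 h3 ⊢ <;> simp (decide := true)

theorem m1_rhp (j : Fin 6) (h0 : j ≠ 0) (h3 : j ≠ 3) (p : E4) : m1 (-j) (rhp p) = m1 j p := by
  fin_cases j <;> simp [m1, mp_rhp, mm_rhp] at h0 h3 ⊢ <;> simp (decide := true) [mp_rhp, mm_rhp]

theorem m2_rhp (j : Fin 6) (h0 : j ≠ 0) (h3 : j ≠ 3) (p : E4) : m2 (-j) (rhp p) = m2 j p := by
  fin_cases j <;> simp [m2, mp_rhp, mm_rhp] at h0 h3 ⊢ <;> simp (decide := true) [mp_rhp, mm_rhp]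

theorem la_rhp' (j : Fin 6) (h : j = 0 ∨ j = 3) (p : E4) : la (-j) (rhp p) = - la j p := by
  rcases h with rfl | rfl <;> simp (decide := true) [la, lat_rhp]

theorem m1_rhp' (j : Fin 6) (h : j = 0 ∨ j = 3) (p : E4) : m1 (-j) (rhp p) = m2 j p := by
  rcases h with rfl | rfl <;> simp (decide := true) [m1, m2, mp_rhp, mm_rhp]

theorem m2_rhp' (j : Fin 6) (h : j = 0 ∨ j = 3) (p : E4) : m2 (-j) (rhp p) = m1 j p := by
  rcases h with rfl | rfl <;> simp (decide := true) [m1, m2, mp_rhp, mm_rhp]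

theorem not_both (p : E4) (h1 : mp p < 1 / 8) (h2 : mm p < 1 / 8) : False := by
  unfold mp at h1
  unfold mm at h2
  rw [Real.sqrt_lt' (by norm_num)] at h1 h2
  have h3 : (p 3 - 1 / 2) ^ 2 < 1 / 64 := by nlinarith [sq_nonneg (rad p - 1 / 4)]
  have h4 : (p 3 + 1 / 2) ^ 2 < 1 / 64 := by nlinarith [sq_nonneg (rad p - 1 / 4)]
  nlinarith [sq_nonneg (p 3)]

theorem condA_symm (M : ℝ → ℝ) (α m m' : ℝ) : CondA M (-α) m' m ↔ CondA M α m m' := by
  unfold CondA
  constructor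
  · rintro (⟨h, h1, h2⟩ | ⟨h, h1⟩ | ⟨h, h1⟩)
    · exact Or.inl ⟨neg_eq_zero.1 h, h2, h1⟩
    · exact Or.inr (Or.inr ⟨by linarith, by rw [h1, neg_neg]⟩)
    · exact Or.inr (Or.inl ⟨by linarith, h1⟩)
  · rintro (⟨h, h1, h2⟩ | ⟨h, h1⟩ | ⟨h, h1⟩)
    · exact Or.inl ⟨neg_eq_zero.2 h, h2, h1⟩
    · exact Or.inr (Or.inr ⟨by linarith, h1⟩)
    · exact Or.inr (Or.inl ⟨by linarith, by rw [h1, neg_neg]⟩)

theorem neg_cases (j : Fin 6) : (-j = 0 ∨ -j = 3) ↔ (j = 0 ∨ j = 3) := by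
  revert j; decide

theorem Cond_rhp (M : ℝ → ℝ) (j : Fin 6) (p : E4) : Cond M (-j) (rhp p) ↔ Cond M j p := by
  unfold Cond
  by_cases h : j = 0 ∨ j = 3
  · rw [if_pos ((neg_cases j).2 h), if_pos h, la_rhp' j h, m1_rhp' j h, m2_rhp' j h, condA_symm]
  · rw [if_neg (fun h' => h ((neg_cases j).1 h')), if_neg h]
    push Not at h
    rw [la_rhp j h.1 h.2, m1_rhp j h.1 h.2, m2_rhp j h.1 h.2]

theorem mem_Dtop_rhp' (M : ℝ → ℝ) (p : E4) (h : p ∈ Dtop M) : rhp p ∈ Dtop M := by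
  rcases h with h | ⟨j, h1, h2⟩
  · left
    have : rad p = 0 := h
    show rad (rhp p) = 0
    rw [rad_rhp, this]
  · exact Or.inr ⟨-j, (Pg_rhp j p).2 h1, (Cond_rhp M j p).2 h2⟩

theorem mem_Dtop_rhp (M : ℝ → ℝ) (p : E4) : rhp p ∈ Dtop M ↔ p ∈ Dtop M :=
  ⟨fun h => by rw [← rhp_rhp p]; exact mem_Dtop_rhp' M _ h, mem_Dtop_rhp' M p⟩

theorem lab_rhp (M : ℝ → ℝ) (j : Fin 6) (h0 : j ≠ 0) (h3 : j ≠ 3) (p : E4) :
    lab M (-j) (rhp p) = lab M j p := by
  have h : ¬ (j = 0 ∨ j = 3) := by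
    push Not
    exact ⟨h0, h3⟩
  unfold lab
  rw [if_neg (fun h' => h ((neg_cases j).1 h')), if_neg h, la_rhp j h0 h3, m1_rhp j h0 h3,
    m2_rhp j h0 h3]

theorem labA_symm (M : ℝ → ℝ) (hM : Good M) (α m m' : ℝ) (h : ¬ CondA M α m m')
    (hmm : ¬ (m < 1 / 8 ∧ m' < 1 / 8)) :
    (labA M α m m' = 0 ∧ labA M (-α) m' m = 1) ∨ (labA M α m m' = 1 ∧ labA M (-α) m' m = 0) := by
  unfold CondA at h
  push Not at h
  obtain ⟨h1, h2, h3⟩ := h
  unfold labA
  rcases lt_trichotomy α 0 with ha | ha | ha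
  · rcases lt_or_gt_of_ne (h2 ha) with hb | hb
    · left
      rw [if_pos (Or.inr ⟨ha.le, hb⟩), if_neg]
      · exact ⟨rfl, rfl⟩
      · rintro (⟨-, h5⟩ | ⟨h5, -⟩) <;> linarith
    · right
      rw [if_neg, if_pos (Or.inl ⟨by linarith, hb⟩)]
      · exact ⟨rfl, rfl⟩
      · rintro (⟨h5, -⟩ | ⟨-, h5⟩) <;> linarith
  · subst ha
    simp only [neg_zero]
    by_cases hb : m < M 0
    · left
      rw [if_pos (Or.inr ⟨le_rfl, hb⟩), if_neg]
      · exact ⟨rfl, rfl⟩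
      · rintro (⟨h5, -⟩ | ⟨-, h5⟩)
        · exact lt_irrefl _ h5
        · exact hmm ⟨hb.trans (hM.lt 0), h5.trans (hM.lt 0)⟩
    · right
      have hc := h1 rfl (not_lt.1 hb)
      rw [if_neg, if_pos (Or.inr ⟨le_rfl, hc⟩)]
      · exact ⟨rfl, rfl⟩
      · rintro (⟨h5, -⟩ | ⟨-, h5⟩)
        · exact lt_irrefl _ h5
        · exact hb h5
  · rcases lt_or_gt_of_ne (h3 ha) with hb | hb
    · right
      rw [if_neg, if_pos (Or.inr ⟨by linarith, by rwa [neg_neg]⟩)]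
      · exact ⟨rfl, rfl⟩
      · rintro (⟨-, h5⟩ | ⟨h5, -⟩) <;> linarith
    · left
      rw [if_pos (Or.inl ⟨ha, hb⟩), if_neg]
      · exact ⟨rfl, rfl⟩
      · rintro (⟨h5, -⟩ | ⟨-, h5⟩)
        · linarith
        · rw [neg_neg] at h5
          linarith

theorem G_rhp (M : ℝ → ℝ) (hM : Good M) (j : Fin 6) (p : E4) (hj : p ∈ Pg j)
    (hp : p ∉ Dtop M) : G (-j) (lab M (-j) (rhp p)) = (G j (lab M j p))⁻¹ := by
  by_cases h : j = 0 ∨ j = 3
  · have h' := (neg_cases j).2 h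
    have hc : ¬ CondA M (la j p) (m1 j p) (m2 j p) := by
      intro h5
      exact hp (Or.inr ⟨j, hj, by unfold Cond; rw [if_pos h]; exact h5⟩)
    have hmm : ¬ (m1 j p < 1 / 8 ∧ m2 j p < 1 / 8) := by
      rintro ⟨h5, h6⟩
      have e1 : m1 j p = mp p := by
        rcases h with rfl | rfl <;> simp (decide := true) [m1]
      have e2 : m2 j p = mm p := by
        rcases h with rfl | rfl <;> simp (decide := true) [m2]
      rw [e1] at h5
      rw [e2] at h6
      exact not_both p h5 h6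
    have e1 : lab M j p = labA M (la j p) (m1 j p) (m2 j p) := by
      unfold lab
      rw [if_pos h]
    have e2 : lab M (-j) (rhp p) = labA M (-la j p) (m2 j p) (m1 j p) := by
      unfold lab
      rw [if_pos h', la_rhp' j h, m1_rhp' j h, m2_rhp' j h]
    obtain ⟨g1, g2⟩ := G_neg' j h
    rcases labA_symm M hM _ _ _ hc hmm with ⟨h1, h2⟩ | ⟨h1, h2⟩
    · rw [e1, e2, h1, h2, g1]
    · rw [e1, e2, h1, h2, g2]
  · push Not at h
    rw [lab_rhp M j h.1 h.2, G_neg j _ h.1 h.2]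

/-! ### frames -/

/-- compatible frame data at `x` -/
def Compat (M : ℝ → ℝ) (x : E4) (c : Fin 6 → Equiv.Perm (Fin 5)) : Prop :=
  ∀ j, x ∈ Pg j → c j = G j (lab M j x) * c (j - 1)

theorem sub_one_ne : ∀ k : Fin 6, k - 1 ≠ k := by decide

theorem neg_aux : ∀ l : Fin 6, -(l - 1) - 1 = -l := by decide

theorem page_unique (p : E4) (j k : Fin 6) (h : p ∈ Pg j) (h' : p ∈ Pg k) (hjk : j ≠ k) :
    p 1 = 0 ∧ p 2 = 0 := by
  fin_cases j <;> fin_cases k <;> simp [Pg, ell, dt, uy, uz] at h h' hjk ⊢ <;>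
    (constructor <;> linarith [h.1, h.2, h'.1, h'.2])

theorem exists_compat (M : ℝ → ℝ) (hM : Good M) (hTAB : S_TAB) (x : E4) (hx : x ∉ Dtop M) :
    ∃ c, Compat M x c := by
  by_cases hb : x 1 = 0 ∧ x 2 = 0
  · obtain ⟨i, hi⟩ := hTAB M hM x hb.1 hb.2 hx
    have hprod := G_prod i
    simp only [← hi] at hprod
    refine ⟨![G 0 (lab M 0 x), G 1 (lab M 1 x) * G 0 (lab M 0 x),
      G 2 (lab M 2 x) * G 1 (lab M 1 x) * G 0 (lab M 0 x),
      G 3 (lab M 3 x) * G 2 (lab M 2 x) * G 1 (lab M 1 x) * G 0 (lab M 0 x),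
      G 4 (lab M 4 x) * G 3 (lab M 3 x) * G 2 (lab M 2 x) * G 1 (lab M 1 x) * G 0 (lab M 0 x),
      1], ?_⟩
    intro j _
    have e1 : (1 : Fin 6) - 1 = 0 := by decide
    have e2 : (2 : Fin 6) - 1 = 1 := by decide
    have e3 : (3 : Fin 6) - 1 = 2 := by decide
    have e4 : (4 : Fin 6) - 1 = 3 := by decide
    have e5 : (5 : Fin 6) - 1 = 4 := by decide
    have e0 : (0 : Fin 6) - 1 = 5 := by decide
    fin_cases j
    · show G 0 (lab M 0 x) = G 0 (lab M 0 x) * ![G 0 (lab M 0 x), _, _, _, _, 1] (0 - 1)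
      rw [e0]
      exact (mul_one _).symm
    · show _ = _ * ![G 0 (lab M 0 x), _, _, _, _, 1] (1 - 1)
      rw [e1]
      rfl
    · show _ = _ * ![G 0 (lab M 0 x), _, _, _, _, 1] (2 - 1)
      rw [e2]
      exact mul_assoc _ _ _
    · show _ = _ * ![G 0 (lab M 0 x), _, _, _, _, 1] (3 - 1)
      rw [e3]
      show G 3 (lab M 3 x) * G 2 (lab M 2 x) * G 1 (lab M 1 x) * G 0 (lab M 0 x) =
        G 3 (lab M 3 x) * (G 2 (lab M 2 x) * G 1 (lab M 1 x) * G 0 (lab M 0 x))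
      simp only [mul_assoc]
    · show _ = _ * ![G 0 (lab M 0 x), _, _, _, _, 1] (4 - 1)
      rw [e4]
      show G 4 (lab M 4 x) * G 3 (lab M 3 x) * G 2 (lab M 2 x) * G 1 (lab M 1 x) *
        G 0 (lab M 0 x) = G 4 (lab M 4 x) *
          (G 3 (lab M 3 x) * G 2 (lab M 2 x) * G 1 (lab M 1 x) * G 0 (lab M 0 x))
      simp only [mul_assoc]
    · show _ = _ * ![G 0 (lab M 0 x), _, _, _, _, 1] (5 - 1)
      rw [e5]
      show 1 = G 5 (lab M 5 x) * (G 4 (lab M 4 x) * G 3 (lab M 3 x) * G 2 (lab M 2 x) *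
        G 1 (lab M 1 x) * G 0 (lab M 0 x))
      rw [← hprod]
      simp only [mul_assoc]
  · by_cases hp : ∃ j, x ∈ Pg j
    · obtain ⟨j, hj⟩ := hp
      refine ⟨fun k => if k = j then G j (lab M j x) else 1, ?_⟩
      intro k hk
      have hkj : k = j := by
        by_contra h
        exact hb (page_unique x k j hk hj h)
      subst hkj
      have hne : k - 1 ≠ k := sub_one_ne k
      simp only [if_true, if_neg hne, mul_one]
    · exact ⟨1, fun j hj => absurd ⟨j, hj⟩ hp⟩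

open Classical in
/-- chosen frame data -/
noncomputable def cc (M : ℝ → ℝ) (x : E4) : Fin 6 → Equiv.Perm (Fin 5) :=
  if h : ∃ c, Compat M x c then h.choose else 1

theorem cc_spec (M : ℝ → ℝ) (hM : Good M) (hTAB : S_TAB) (x : E4) (hx : x ∉ Dtop M) :
    Compat M x (cc M x) := by
  unfold cc
  rw [dif_pos (exists_compat M hM hTAB x hx)]
  exact (exists_compat M hM hTAB x hx).choose_spec

/-- chosen wedge -/
noncomputable def jj (x : E4) : Fin 6 := (exists_wedge x).choose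

theorem jj_spec (x : E4) : x ∈ ClW (jj x) := (exists_wedge x).choose_spec

/-- `y` is close to `x` -/
def P (M : ℝ → ℝ) (x y : E4) : Prop := ∀ j, y ∈ Pg j → x ∈ Pg j ∧ lab M j y = lab M j x

theorem P_self (M : ℝ → ℝ) (x : E4) : P M x x := fun _ h => ⟨h, rfl⟩

theorem near (M : ℝ → ℝ) (hM : Good M) (hLC : S_LC) (x : E4) (hx : x ∉ Dtop M) :
    ∀ᶠ y in 𝓝 x, y ∉ Dtop M → P M x y := by
  have : ∀ j : Fin 6, ∀ᶠ y in 𝓝 x, y ∉ Dtop M → y ∈ Pg j → x ∈ Pg j ∧ lab M j y = lab M j x := by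
    intro j
    by_cases hj : x ∈ Pg j
    · filter_upwards [hLC M hM j x hj hx] with y hy h1 h2
      exact ⟨hj, hy h2 h1⟩
    · filter_upwards [(isClosed_Pg j).isOpen_compl.mem_nhds hj] with y hy h1 h2
      exact absurd h2 hy
  filter_upwards [Filter.eventually_all.2 this] with y hy h1 j h2
  exact hy j h1 h2

theorem near2 (x : E4) : ∀ᶠ y in 𝓝 x, ∀ j, y ∈ ClW j → x ∈ ClW j := by
  refine Filter.eventually_all.2 fun j => ?_
  by_cases hj : x ∈ ClW j
  · exact Filter.Eventually.of_forall fun y _ => hj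
  · filter_upwards [(isClosed_ClW j).isOpen_compl.mem_nhds hj] with y hy h1
    exact absurd h1 hy

theorem A_const (M : ℝ → ℝ) {a b y : E4} {ca cb : Fin 6 → Equiv.Perm (Fin 5)}
    (ha : Compat M a ca) (hb : Compat M b cb) (hPa : P M a y) (hPb : P M b y) (j k : Fin 6)
    (hj : y ∈ ClW j) (hk : y ∈ ClW k) : (cb j)⁻¹ * ca j = (cb k)⁻¹ * ca k := by
  refine chain (fun j => (cb j)⁻¹ * ca j) y ?_ j k hj hk
  intro l hl
  obtain ⟨h1, h2⟩ := hPa l hl
  obtain ⟨h3, h4⟩ := hPb l hl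
  show (cb l)⁻¹ * ca l = (cb (l - 1))⁻¹ * ca (l - 1)
  rw [ha l h1, hb l h3, ← h2, ← h4]
  group

theorem B_const (M : ℝ → ℝ) (hM : Good M) {y : E4} (hy : y ∉ Dtop M)
    {c cr : Fin 6 → Equiv.Perm (Fin 5)}
    (h : Compat M y c) (hr : Compat M (rhp y) cr) (j k : Fin 6)
    (hj : y ∈ ClW j) (hk : y ∈ ClW k) : (cr (-j - 1))⁻¹ * c j = (cr (-k - 1))⁻¹ * c k := by
  refine chain (fun j => (cr (-j - 1))⁻¹ * c j) y ?_ j k hj hk
  intro l hl
  show (cr (-l - 1))⁻¹ * c l = (cr (-(l - 1) - 1))⁻¹ * c (l - 1)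
  have e : (-(l - 1) - 1 : Fin 6) = -l := neg_aux l
  have h1 := hr (-l) ((Pg_rhp l y).2 hl)
  rw [G_rhp M hM l y hl hy] at h1
  rw [e, h l hl, h1]
  group

theorem A_const' (M : ℝ → ℝ) {a b y : E4} {ca cb : Fin 6 → Equiv.Perm (Fin 5)}
    (ha : Compat M a ca) (hb : Compat M b cb) (hPa : P M a y) (hPb : P M b y) (j k : Fin 6)
    (hj : y ∈ ClW j) (hk : y ∈ ClW k) (v : Fin 5) :
    (cb j)⁻¹ (ca j v) = (cb k)⁻¹ (ca k v) := by
  have h := A_const M ha hb hPa hPb j k hj hk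
  have h2 := congrArg (fun g : Equiv.Perm (Fin 5) => g v) h
  exact h2

theorem B_const' (M : ℝ → ℝ) (hM : Good M) {y : E4} (hy : y ∉ Dtop M)
    {c cr : Fin 6 → Equiv.Perm (Fin 5)}
    (h : Compat M y c) (hr : Compat M (rhp y) cr) (j k : Fin 6)
    (hj : y ∈ ClW j) (hk : y ∈ ClW k) (v : Fin 5) :
    (cr (-j - 1))⁻¹ (c j v) = (cr (-k - 1))⁻¹ (c k v) := by
  have h := B_const M hM hy h hr j k hj hk
  have h2 := congrArg (fun g : Equiv.Perm (Fin 5) => g v) h
  exact h2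

end Exi

end EQD
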